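import Mathlib

namespace Pool.Agent.H.MP_87579d_co

open SimpleGraph

/-- nonrepetitive on paths inside `S`, paths given as functions -/
def NRF {W C : Type*} (G : SimpleGraph W) (c : W → C) (S : Set W) : Prop :=
  ∀ n : ℕ, 0 < n → ∀ x : ℕ → W, (∀ i, i + 1 < 2 * n → G.Adj (x i) (x (i + 1))) →
    (∀ i j, i < 2 * n → j < 2 * n → x i = x j → i = j) → (∀ i, i < 2 * n → x i ∈ S) →
    ∃ i < n, c (x i) ≠ c (x (i + n))

def NRW {W C : Type*} (G : SimpleGraph W) (c : W → C) : Prop :=
  ∀ (u v : W) (p : G.Walk u v), p.IsPath → ∀ n : ℕ, 0 < n → p.support.length = 2 * n →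
    (p.support.map c).take n ≠ (p.support.map c).drop n

lemma NRW_of_NRF {W C : Type*} {G : SimpleGraph W} {c : W → C} (h : NRF G c Set.univ) :
    NRW G c := by
  intro u v p hp n hn hl heq
  have hl' : p.length + 1 = 2 * n := by rw [← hl, p.length_support]
  obtain ⟨i, hi, h1⟩ := h n hn p.getVert (fun i hi => p.adj_getVert_succ (by omega))
    (fun i j hi hj e => hp.getVert_injOn (show i ≤ p.length by omega)
      (show j ≤ p.length by omega) e) (fun _ _ => trivial)
  apply h1
  have h2 := congrArg (fun l => l[i]?) heq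
  simp only [List.getElem?_take, List.getElem?_drop, if_pos hi, List.getElem?_map] at h2
  rw [List.getElem?_eq_getElem (by omega), List.getElem?_eq_getElem (by omega),
    Walk.support_getElem_eq_getVert, Walk.support_getElem_eq_getVert] at h2
  simp only [Option.map_some, Option.some.injEq] at h2
  rw [h2, add_comm]

lemma exists_walk {W : Type*} {G : SimpleGraph W} (x : ℕ → W) (m : ℕ)
    (h : ∀ i, i < m → G.Adj (x i) (x (i + 1))) :
    ∃ p : G.Walk (x 0) (x m), p.support = (List.range (m + 1)).map x := by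
  induction m with
  | zero => exact ⟨Walk.nil, by simp⟩
  | succ m ih =>
    obtain ⟨p, hp⟩ := ih fun i hi => h i (by omega)
    refine ⟨p.concat (h m (by omega)), ?_⟩
    rw [Walk.support_concat, hp, List.range_succ (n := m + 1)]
    simp

lemma NRF_of_NRW {W C : Type*} {G : SimpleGraph W} {c : W → C} (h : NRW G c) :
    NRF G c Set.univ := by
  intro n hn x h1 h2 _
  obtain ⟨p, hp⟩ := exists_walk (G := G) x (2 * n - 1) fun i hi => h1 i (by omega)
  have e : 2 * n - 1 + 1 = 2 * n := by omega
  rw [e] at hp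
  have hpath : p.IsPath := by
    rw [Walk.isPath_def, hp]
    exact List.Nodup.map_on (fun i hi j hj e => h2 i j (List.mem_range.mp hi)
      (List.mem_range.mp hj) e) List.nodup_range
  by_contra hc
  push Not at hc
  refine h _ _ p hpath n hn (by rw [hp]; simp) ?_
  rw [hp]
  apply List.ext_getElem
  · simp; omega
  · intro i h3 h4
    have hi : i < n := by simp at h3; omega
    simp only [List.getElem_take, List.getElem_drop, List.getElem_map, List.getElem_range]
    rw [hc i hi, add_comm]

lemma NRF.pull {W W' C : Type*} {G : SimpleGraph W} {G' : SimpleGraph W'} {c : W' → C}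
    {S : Set W} {S' : Set W'} (h : NRF G' c S') (f : W → W')
    (h1 : ∀ a ∈ S, ∀ b ∈ S, G.Adj a b → G'.Adj (f a) (f b))
    (h2 : ∀ a ∈ S, ∀ b ∈ S, f a = f b → a = b) (h3 : ∀ a ∈ S, f a ∈ S') :
    NRF G (c ∘ f) S := by
  intro n hn x a1 a2 a3
  exact h n hn (f ∘ x) (fun i hi => h1 _ (a3 i (by omega)) _ (a3 _ hi) (a1 i hi))
    (fun i j hi hj e => a2 i j hi hj (h2 _ (a3 i hi) _ (a3 j hj) e)) (fun i hi => h3 _ (a3 i hi))

lemma NRF.list {W C : Type*} {G : SimpleGraph W} {c : W → C} {S : Set W} (h : NRF G c S)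
    (l : List W) (n : ℕ) (hn : 0 < n) (hl : l.length = 2 * n) (h1 : l.IsChain G.Adj)
    (h2 : l.Nodup) (h3 : ∀ a ∈ l, a ∈ S) : (l.map c).take n ≠ (l.map c).drop n := by
  intro heq
  have hne : 0 < l.length := by omega
  let x : ℕ → W := fun i => l.getD i (l[0])
  have hx : ∀ i (hi : i < l.length), x i = l[i] := fun i hi => List.getD_eq_getElem _ _ hi
  obtain ⟨i, hi, h4⟩ := h n hn x
    (fun i hi => by
      rw [hx i (by omega), hx (i + 1) (by omega)]
      exact List.isChain_iff_getElem.mp h1 i (by omega))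
    (fun i j hi hj e => by
      rw [hx i (by omega), hx j (by omega)] at e
      exact (h2.getElem_inj_iff).mp e)
    (fun i hi => by rw [hx i (by omega)]; exact h3 _ (List.getElem_mem _))
  apply h4
  have h5 := congrArg (fun l => l[i]?) heq
  simp only [List.getElem?_take, List.getElem?_drop, if_pos hi, List.getElem?_map] at h5
  rw [List.getElem?_eq_getElem (by omega), List.getElem?_eq_getElem (by omega)] at h5
  simp only [Option.map_some, Option.some.injEq] at h5
  rw [hx i (by omega), hx (i + n) (by omega), h5]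
  simp only [add_comm]

/-- extraction of a critical tree -/
theorem extract {V : Type} (Γ : SimpleGraph V) (hac : Γ.IsAcyclic) (S0 : Finset V)
    (h0 : ¬ ∃ c : V → Fin 3, NRF Γ c S0) :
    ∃ m : ℕ, ∃ G : SimpleGraph (Fin m), G.IsTree ∧ (∃ f : G →g Γ, Function.Injective f) ∧
      (¬ ∃ c : Fin m → Fin 3, NRW G c) ∧ (∃ c : Fin m → Fin 4, NRW G c) ∧
      ∀ H : G.Subgraph, H.Connected → H ≠ ⊤ → ∃ c : H.verts → Fin 3, NRW H.coe c := by
  classical
  have hex : ∃ m, ∃ S : Finset V, S.card = m ∧ ¬ ∃ c : V → Fin 3, NRF Γ c S := ⟨_, S0, rfl, h0⟩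
  obtain ⟨S, hS, hSn⟩ := Nat.find_spec hex
  have hmin : ∀ T : Finset V, T.card < S.card → ∃ c : V → Fin 3, NRF Γ c T := by
    intro T hT
    by_contra hc
    exact Nat.find_min hex (hS ▸ hT) ⟨T, rfl, hc⟩
  set m := S.card with hm
  let e : Fin m → V := fun i => (S.equivFin.symm i : V)
  have he : Function.Injective e := Subtype.val_injective.comp S.equivFin.symm.injective
  have heS : ∀ i, e i ∈ S := fun i => (S.equivFin.symm i).2
  have hes : ∀ v ∈ S, ∃ i, e i = v := fun v hv => ⟨S.equivFin ⟨v, hv⟩, by simp [e]⟩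
  let G : SimpleGraph (Fin m) := Γ.comap e
  have hsub : ∀ A : Set (Fin m), A ≠ Set.univ → ∃ c : Fin m → Fin 3, NRF G c A := by
    intro A hA
    obtain ⟨c, hc⟩ := hmin (A.toFinset.image e) (by
      rw [Finset.card_image_of_injective _ he]
      have : A.toFinset.card < (Finset.univ : Finset (Fin m)).card :=
        Finset.card_lt_card (Finset.ssubset_univ_iff.mpr (by simpa using hA))
      simpa using this)
    exact ⟨c ∘ e, hc.pull e (fun a _ b _ h => h) (fun a _ b _ h => he h)
      (fun a ha => by simpa [he.eq_iff] using ha)⟩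
  have hm0 : 0 < m := by
    rcases Nat.eq_zero_or_pos m with h | h
    · exfalso; apply hSn
      refine ⟨fun _ => 0, fun n hn x _ _ h3 => ?_⟩
      have := h3 0 (by omega)
      have h4 : S = ∅ := Finset.card_eq_zero.mp (hm.symm.trans h)
      rw [h4] at this
      simp at this
    · exact h
  let v0 : Fin m := ⟨0, hm0⟩
  have hne0 : Nonempty (Fin m) := ⟨v0⟩
  have hno : ¬ ∃ c : Fin m → Fin 3, NRF G c Set.univ := by
    rintro ⟨c, hc⟩
    apply hSn
    let g : V → Fin m := Function.invFun (α := Fin m) (β := V) e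
    have hg : ∀ v ∈ S, e (g v) = v := fun v hv => Function.invFun_eq (hes v hv)
    refine ⟨c ∘ g, hc.pull g (fun a ha b hb h => ?_) (fun a ha b hb h => ?_) (fun _ _ => trivial)⟩
    · show Γ.Adj (e (g a)) (e (g b))
      rwa [hg a ha, hg b hb]
    · rw [← hg a ha, ← hg b hb, h]
  have hconn : G.Connected := by
    refine ⟨fun a b => ?_⟩
    by_contra hab
    let A : Set (Fin m) := {z | G.Reachable a z}
    obtain ⟨c1, h1⟩ := hsub A (fun h => hab (show b ∈ A by rw [h]; trivial))
    obtain ⟨c2, h2⟩ := hsub Aᶜ (fun h => (show a ∈ Aᶜ by rw [h]; trivial) (Reachable.refl a))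
    apply hno
    refine ⟨fun z => if z ∈ A then c1 z else c2 z, fun n hn x a1 a2 _ => ?_⟩
    have hr : ∀ i, i < 2 * n → G.Reachable (x 0) (x i) := by
      intro i
      induction i with
      | zero => intro _; exact Reachable.refl _
      | succ i ih => intro hi; exact (ih (by omega)).trans (a1 i hi).reachable
    by_cases hx : x 0 ∈ A
    · have hA : ∀ i, i < 2 * n → x i ∈ A := fun i hi => Reachable.trans hx (hr i hi)
      obtain ⟨i, hi, h3⟩ := h1 n hn x a1 a2 hA
      exact ⟨i, hi, by simpa [hA i (by omega), hA (i + n) (by omega)] using h3⟩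
    · have hA : ∀ i, i < 2 * n → x i ∉ A := fun i hi h => hx (Reachable.trans h (hr i hi).symm)
      obtain ⟨i, hi, h3⟩ := h2 n hn x a1 a2 hA
      exact ⟨i, hi, by simpa [hA i (by omega), hA (i + n) (by omega)] using h3⟩
  have hGac : G.IsAcyclic := hac.comap ⟨e, fun h => h⟩ he
  refine ⟨m, G, ⟨hconn, hGac⟩, ⟨⟨e, fun h => h⟩, he⟩, fun ⟨c, hc⟩ => hno ⟨c, NRF_of_NRW hc⟩,
    ?_, ?_⟩
  · obtain ⟨c, hc⟩ := hsub {v0}ᶜ (fun h => (show v0 ∈ ({v0}ᶜ : Set (Fin m)) by rw [h]; trivial) rfl)
    refine ⟨fun z => if z = v0 then 3 else (c z).castSucc, NRW_of_NRF fun n hn x a1 a2 _ => ?_⟩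
    have h3 : ∀ a : Fin 3, a.castSucc ≠ 3 := by decide
    by_cases hx : ∃ j < 2 * n, x j = v0
    · obtain ⟨j, hj, hjv⟩ := hx
      by_cases hjn : j < n
      · refine ⟨j, hjn, ?_⟩
        have : x (j + n) ≠ v0 := fun h => by
          have := a2 j (j + n) hj (by omega) (hjv.trans h.symm); omega
        simp only [hjv, this, if_true, if_false]
        exact (h3 _).symm
      · refine ⟨j - n, by omega, ?_⟩
        have : x (j - n) ≠ v0 := fun h => by
          have := a2 j (j - n) hj (by omega) (hjv.trans h.symm); omega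
        have e1 : j - n + n = j := by omega
        simp only [e1, hjv, this, if_true, if_false]
        exact h3 _
    · push Not at hx
      obtain ⟨i, hi, h4⟩ := hc n hn x a1 a2 fun i hi => hx i hi
      refine ⟨i, hi, ?_⟩
      simp only [hx i (by omega), hx (i + n) (by omega), if_false]
      exact fun h => h4 (Fin.castSucc_injective _ h)
  · intro H hH hne
    have hv : H.verts ≠ Set.univ := by
      intro hv
      apply hne
      refine Subgraph.ext (by simpa using hv) ?_
      ext a b
      refine ⟨fun h => H.adj_sub h, fun h => ?_⟩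
      have h' : G.Adj a b := h
      by_contra hn
      apply isAcyclic_iff_forall_adj_isBridge.mp hGac h'
      have hr := hH.coe.preconnected ⟨a, by rw [hv]; trivial⟩ ⟨b, by rw [hv]; trivial⟩
      let f : H.coe →g G.deleteEdges {s(a, b)} := ⟨Subtype.val, fun {u v} huv => by
        have huv' : H.Adj u v := huv
        rw [deleteEdges_adj]
        refine ⟨H.adj_sub huv', fun h1 => hn ?_⟩
        rw [Set.mem_singleton_iff, Sym2.eq_iff] at h1
        rcases h1 with ⟨h2, h3⟩ | ⟨h2, h3⟩
        · rw [← h2, ← h3]; exact huv'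
        · rw [← h2, ← h3]; exact huv'.symm⟩
      exact hr.map f
    obtain ⟨c, hc⟩ := hsub H.verts hv
    exact ⟨c ∘ Subtype.val, NRW_of_NRF (hc.pull Subtype.val (fun a _ b _ h => H.adj_sub h)
      (fun a _ b _ h => Subtype.ext h) (fun a _ => a.2))⟩

end Pool.Agent.H.MP_87579d_co
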