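import Mathlib

namespace Pool.Agent.H.MP_87579d_co

def dg (i : ℕ) : ℕ := (6760700126756 >>> (2 * i)) % 4

def w (n : ℕ) : ℕ := if h : n = 0 then 0 else (dg (n % 23) + w (n / 23)) % 3
  decreasing_by omega

lemma w_eq (n : ℕ) : w n = (dg (n % 23) + w (n / 23)) % 3 := by
  by_cases h : n = 0
  · subst h
    have : w 0 = 0 := by rw [w]; simp
    rw [this]; decide
  · rw [w]; simp [h]

lemma w_lt (n : ℕ) : w n < 3 := by rw [w_eq]; omega

def WW (a b c p : ℕ) : ℕ := (dg (p % 23) + if p < 23 then a else if p < 46 then b else c) % 3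

lemma w_WW (j p : ℕ) (hp : p < 69) : w (23 * j + p) = WW (w j) (w (j + 1)) (w (j + 2)) p := by
  rw [w_eq, WW]
  have h1 : (23 * j + p) % 23 = p % 23 := by omega
  rw [h1]
  split_ifs with h2 h3
  · have : (23 * j + p) / 23 = j := by omega
    rw [this]
  · have : (23 * j + p) / 23 = j + 1 := by omega
    rw [this]
  · have : (23 * j + p) / 23 = j + 2 := by omega
    rw [this]

lemma chk_ne : ∀ a < 3, ∀ b < 3, a ≠ b → ∀ o < 23, WW a b 0 o ≠ WW a b 0 (o + 1) := by
  decide +kernel

lemma w_ne (n : ℕ) : w n ≠ w (n + 1) := by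
  induction n using Nat.strong_induction_on with
  | _ n ih =>
    by_cases h : n = 0
    · subst h
      have h0 : w 0 = 0 := by rw [w]; simp
      rw [w_eq (0 + 1)]
      norm_num [h0]; decide
    · have h1 := ih (n / 23) (by omega)
      have h2 := chk_ne _ (w_lt _) _ (w_lt _) h1 (n % 23) (by omega)
      have e1 := w_WW (n / 23) (n % 23) (by omega)
      have e2 := w_WW (n / 23) (n % 23 + 1) (by omega)
      have e3 : 23 * (n / 23) + n % 23 = n := by omega
      rw [← add_assoc, e3] at e2
      rw [e3] at e1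
      rw [e1, e2]
      have f : ∀ a b c p, p < 46 → WW a b c p = WW a b 0 p := by
        intro a b c p hp; simp only [WW, if_pos hp]
      rw [f _ _ _ _ (by omega), f _ _ (w _) (n % 23 + 1) (by omega)]
      exact h2

def AA (c x d : ℕ) : ℕ := if d % 3 = 0 then c else if d % 3 = 1 then x else 2 * (c + x) % 3

def gg (F : ℕ → ℕ) (l d i : ℕ) : ℕ :=
  if i < d then AA (F 1) (F 2) (d - i)
  else if i ≤ d + l then F (1 + i - d) else AA (F (l + 1)) (F (l + 2)) (i - d - l)

def keyB (F : ℕ → ℕ) (n d e : ℕ) : Bool :=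
  decide (2 * n < d + e + 1) || (decide (d ≠ 0) && decide (F 0 ≠ F 2)) ||
    (decide (e ≠ 0) && decide (F (2 * n - 1 - d - e) ≠ F (2 * n - 1 - d - e + 2))) ||
    (List.range n).any fun i => decide (gg F (2 * n - 1 - d - e) d i ≠
      gg F (2 * n - 1 - d - e) d (i + n))

def allB (n : ℕ) (f : ℕ → Bool) : Bool := (List.range n).all f

lemma allB_iff {n : ℕ} {f : ℕ → Bool} : allB n f = true ↔ ∀ i < n, f i = true := by
  simp [allB]

def chkKey (a b : ℕ) : Bool := allB 3 fun c => decide (b = c) ||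
  allB 23 fun o => allB 21 fun n => allB 5 fun d => allB 5 fun e =>
    keyB (fun i => WW a b c (o + i)) (n + 1) d e

lemma chkKey01 : chkKey 0 1 = true := by decide +kernel
lemma chkKey02 : chkKey 0 2 = true := by decide +kernel
lemma chkKey10 : chkKey 1 0 = true := by decide +kernel
lemma chkKey12 : chkKey 1 2 = true := by decide +kernel
lemma chkKey20 : chkKey 2 0 = true := by decide +kernel
lemma chkKey21 : chkKey 2 1 = true := by decide +kernel

lemma chkKey_all (a b : ℕ) (ha : a < 3) (hb : b < 3) (h : a ≠ b) : chkKey a b = true :=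
  match a, b, ha, hb, h with
  | 0, 0, _, _, h => absurd rfl h
  | 0, 1, _, _, _ => chkKey01
  | 0, 2, _, _, _ => chkKey02
  | 1, 0, _, _, _ => chkKey10
  | 1, 1, _, _, h => absurd rfl h
  | 1, 2, _, _, _ => chkKey12
  | 2, 0, _, _, _ => chkKey20
  | 2, 1, _, _, _ => chkKey21
  | 2, 2, _, _, h => absurd rfl h

def chkSq : Bool := allB 3 fun a => allB 3 fun b => allB 3 fun c => decide (a = b) ||
  decide (b = c) || allB 23 fun o => allB 21 fun n =>
    (List.range (n + 1)).any fun i => decide (WW a b c (o + i) ≠ WW a b c (o + (i + (n + 1))))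

lemma chkSq_true : chkSq = true := by decide +kernel

def chkSync : Bool := allB 3 fun a => allB 3 fun b => decide (a = b) ||
  allB 3 fun a' => allB 3 fun b' => decide (a' = b') || allB 23 fun o => allB 23 fun o' =>
    decide (o = o') || (List.range 14).any fun i =>
      decide (WW a b 0 (o + i) ≠ WW a' b' 0 (o' + i))

lemma chkSync_true : chkSync = true := by decide +kernel

lemma w_win (t i : ℕ) (hi : i ≤ 46) :
    w (t + i) = WW (w (t / 23)) (w (t / 23 + 1)) (w (t / 23 + 2)) (t % 23 + i) := by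
  rw [← w_WW _ _ (by omega)]; congr 1; omega

lemma sync (m n : ℕ) (h : ∀ i < 14, w (m + i) = w (m + n + i)) : n % 23 = 0 := by
  have h1 := chkSync_true
  simp only [chkSync, allB_iff, Bool.or_eq_true, decide_eq_true_eq, List.any_eq_true,
    List.mem_range] at h1
  have f : ∀ a b c p, p < 46 → WW a b c p = WW a b 0 p := by
    intro a b c p hp; simp only [WW, if_pos hp]
  rcases h1 _ (w_lt (m / 23)) _ (w_lt (m / 23 + 1)) with h2 | h2
  · exact absurd h2 (w_ne _)
  rcases h2 _ (w_lt ((m + n) / 23)) _ (w_lt ((m + n) / 23 + 1)) with h3 | h3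
  · exact absurd h3 (w_ne _)
  rcases h3 (m % 23) (by omega) ((m + n) % 23) (by omega) with h4 | ⟨i, hi, h4⟩
  · omega
  · exfalso; apply h4
    have := h i hi
    rw [w_win m i (by omega), w_win (m + n) i (by omega), f _ _ _ _ (by omega),
      f _ _ (w _) ((m + n) % 23 + i) (by omega)] at this
    exact this

lemma sq_small (m n : ℕ) (h0 : 0 < n) (hn : n ≤ 21) : ∃ i < n, w (m + i) ≠ w (m + (i + n)) := by
  have h1 := chkSq_true
  simp only [chkSq, allB_iff, Bool.or_eq_true, decide_eq_true_eq, List.any_eq_true,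
    List.mem_range] at h1
  rcases h1 _ (w_lt (m / 23)) _ (w_lt (m / 23 + 1)) _ (w_lt (m / 23 + 2)) with (h2 | h2) | h2
  · exact absurd h2 (w_ne _)
  · exact absurd h2 (w_ne _)
  obtain ⟨i, hi, h3⟩ := h2 (m % 23) (by omega) (n - 1) (by omega)
  have e : n - 1 + 1 = n := by omega
  rw [e] at hi h3
  refine ⟨i, hi, ?_⟩
  rw [w_win m i (by omega), w_win m (i + n) (by omega)]
  exact h3

lemma lift (m n : ℕ) (hn : 22 ≤ n) (h : ∀ i, i + 8 < n → w (m + i) = w (m + (i + n))) :
    0 < n / 23 ∧ ∀ k < n / 23, w (m / 23 + k) = w (m / 23 + (k + n / 23)) := by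
  have h1 := sync m n fun i hi => by rw [h i (by omega)]; congr 1; omega
  refine ⟨by omega, fun k hk => ?_⟩
  have h2 := h (23 * k) (by omega)
  rw [w_eq (m + 23 * k), w_eq (m + (23 * k + n))] at h2
  have e1 : (m + (23 * k + n)) % 23 = (m + 23 * k) % 23 := by omega
  have e2 : (m + 23 * k) / 23 = m / 23 + k := by omega
  have e3 : (m + (23 * k + n)) / 23 = m / 23 + (k + n / 23) := by omega
  rw [e1, e2, e3] at h2
  have := w_lt (m / 23 + k)
  have := w_lt (m / 23 + (k + n / 23))
  omega

lemma sqfree (n : ℕ) : 0 < n → ∀ m, ∃ i < n, w (m + i) ≠ w (m + (i + n)) := by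
  induction n using Nat.strong_induction_on with
  | _ n ih =>
    intro h0 m
    by_cases hn : n ≤ 21
    · exact sq_small m n h0 hn
    · by_contra hc
      push Not at hc
      obtain ⟨h1, h2⟩ := lift m n (by omega) fun i hi => hc i (by omega)
      obtain ⟨i, hi, h3⟩ := ih (n / 23) (by omega) h1 (m / 23)
      exact h3 (h2 i hi)

lemma key (t n l d e : ℕ) (hd : d ≤ 4) (he : e ≤ 4) (hl : d + l + e + 1 = 2 * n)
    (h1 : d ≠ 0 → w t = w (t + 2)) (h2 : e ≠ 0 → w (t + l) = w (t + l + 2)) :
    ∃ i < n, gg (fun i => w (t + i)) l d i ≠ gg (fun i => w (t + i)) l d (i + n) := by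
  by_cases hn : n ≤ 21
  · have hk := chkKey_all _ _ (w_lt (t / 23)) (w_lt (t / 23 + 1)) (w_ne _)
    simp only [chkKey, allB_iff, Bool.or_eq_true, decide_eq_true_eq] at hk
    rcases hk _ (w_lt (t / 23 + 2)) with h3 | h3
    · exact absurd h3 (w_ne _)
    have h4 := h3 (t % 23) (by omega) (n - 1) (by omega) d (by omega) e (by omega)
    have e0 : n - 1 + 1 = n := by omega
    have e1 : 2 * n - 1 - d - e = l := by omega
    rw [e0] at h4
    simp only [keyB, e1, Bool.or_eq_true, Bool.and_eq_true, decide_eq_true_eq, List.any_eq_true,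
      List.mem_range] at h4
    have hF : ∀ i ≤ 46, WW (w (t / 23)) (w (t / 23 + 1)) (w (t / 23 + 2)) (t % 23 + i) =
        w (t + i) := fun i hi => (w_win t i hi).symm
    have hg : ∀ i < 2 * n, gg (fun i => WW (w (t / 23)) (w (t / 23 + 1)) (w (t / 23 + 2))
        (t % 23 + i)) l d i = gg (fun i => w (t + i)) l d i := by
      intro i hi
      simp only [gg]
      rw [hF 1 (by omega), hF 2 (by omega), hF (1 + i - d) (by omega), hF (l + 1) (by omega),
        hF (l + 2) (by omega)]
    rcases h4 with ((h4 | h4) | h4) | ⟨i, hi, h4⟩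
    · omega
    · rw [hF 0 (by omega), hF 2 (by omega)] at h4; exact absurd (h1 h4.1) h4.2
    · rw [hF l (by omega), hF (l + 2) (by omega)] at h4; exact absurd (h2 h4.1) h4.2
    · rw [hg i (by omega), hg (i + n) (by omega)] at h4; exact ⟨i, hi, h4⟩
  · by_contra hc
    push Not at hc
    obtain ⟨h3, h4⟩ := lift (t + 5 - d) n (by omega) fun i hi => by
      have := hc (i + 4) (by omega)
      simp only [gg] at this
      rw [if_neg (by omega), if_pos (by omega), if_neg (by omega), if_pos (by omega)] at this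
      have e1 : t + 5 - d + i = t + (1 + (i + 4) - d) := by omega
      have e2 : t + 5 - d + (i + n) = t + (1 + (i + 4 + n) - d) := by omega
      rw [e1, e2]; exact this
    obtain ⟨i, hi, h5⟩ := sqfree (n / 23) h3 ((t + 5 - d) / 23)
    exact h5 (h4 i hi)

def hh (c x d i z : ℕ) : ℕ := if i ≤ d - z then AA c x (d - i) else AA c x (2 * z + i - d)

def chk1 : Bool := allB 3 fun c => allB 3 fun x => decide (c = x) || allB 5 fun d =>
  allB 5 fun e => allB 5 fun z => allB 5 fun n => decide (d < z) || decide (e < z) ||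
    decide (d + e + 1 ≠ 2 * n + 2 * z) || (List.range n).any fun i =>
      decide (hh c x d i z ≠ hh c x d (i + n) z)

lemma chk1_true : chk1 = true := by decide +kernel

lemma key1 (c x d e z n : ℕ) (hc : c < 3) (hx : x < 3) (h : c ≠ x) (hd : d ≤ 4) (he : e ≤ 4)
    (h1 : z ≤ d) (h2 : z ≤ e) (h3 : d + e + 1 = 2 * n + 2 * z) :
    ∃ i < n, hh c x d i z ≠ hh c x d (i + n) z := by
  have h0 := chk1_true
  simp only [chk1, allB_iff, Bool.or_eq_true, decide_eq_true_eq, List.any_eq_true,
    List.mem_range] at h0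
  rcases h0 c hc x hx with h4 | h4
  · exact absurd h4 h
  rcases h4 d (by omega) e (by omega) z (by omega) n (by omega) with ((h5 | h5) | h5) | h5
  · omega
  · omega
  · exact absurd h3 h5
  · exact h5

lemma four (n : ℕ) : ∃ i < 4, w (n + i) = w (n + i + 2) := by
  by_contra hc
  push Not at hc
  obtain ⟨i, hi, h⟩ := sqfree 3 (by omega) n
  have a0 := hc 0 (by omega)
  have a1 := hc 1 (by omega)
  have a2 := hc 2 (by omega)
  have a3 := hc 3 (by omega)
  have b0 := w_ne n
  have b1 := w_ne (n + 1)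
  have b2 := w_ne (n + 2)
  have b3 := w_ne (n + 3)
  have b4 := w_ne (n + 4)
  have c0 := w_lt n
  have c1 := w_lt (n + 1)
  have c2 := w_lt (n + 2)
  have c3 := w_lt (n + 3)
  have c4 := w_lt (n + 4)
  have c5 := w_lt (n + 5)
  simp only [add_assoc, add_zero, Nat.reduceAdd] at *
  interval_cases i <;> simp only [add_zero, Nat.reduceAdd, zero_add] at h <;> omega

end Pool.Agent.H.MP_87579d_co
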