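import Mathlib
import Pool.Agent.H.MP_87579d_co.Word
import Pool.Agent.H.MP_87579d_co.Gen

namespace Pool.Agent.H.MP_87579d_co

open SimpleGraph

def pk : Fin 7 → Fin 7 := ![0, 0, 1, 1, 2, 2, 4]
def dp : Fin 7 → ℕ := ![0, 1, 2, 2, 3, 3, 4]

lemma dp_le : ∀ k, dp k ≤ 4 := by decide
lemma dp_zero : ∀ k, dp k = 0 ↔ k = 0 := by decide
lemma dp_pk : ∀ k, k ≠ 0 → dp (pk k) + 1 = dp k := by decide

def Up (P : ℕ → Prop) (a b : ℕ × Fin 7) : Prop :=
  (a.2 = 0 ∧ b.2 = 0 ∧ a.1 = b.1 + 1) ∨ (a.2 ≠ 0 ∧ P a.1 ∧ b.1 = a.1 ∧ b.2 = pk a.2)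

lemma Up.rk {P : ℕ → Prop} {a b : ℕ × Fin 7} (h : Up P a b) :
    a.1 + dp a.2 = b.1 + dp b.2 + 1 := by
  rcases h with ⟨h1, h2, h3⟩ | ⟨h1, _, h3, h4⟩
  · rw [h1, h2]; omega
  · have := dp_pk _ h1
    rw [h4]; omega

lemma Up.uniq {P : ℕ → Prop} {a b b' : ℕ × Fin 7} (h : Up P a b) (h' : Up P a b') : b = b' := by
  rcases h with ⟨h1, h2, h3⟩ | ⟨h1, _, h3, h4⟩ <;>
    rcases h' with ⟨h5, h6, h7⟩ | ⟨h5, _, h7, h8⟩
  · exact Prod.ext (by omega) (h2.trans h6.symm)
  · exact absurd h1 h5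
  · exact absurd h5 h1
  · exact Prod.ext (by omega) (h4.trans h8.symm)

def Gam (P : ℕ → Prop) : SimpleGraph (ℕ × Fin 7) where
  Adj a b := Up P a b ∨ Up P b a
  symm := ⟨fun _ _ h => h.symm⟩
  loopless := ⟨fun a h => by rcases h with h | h <;> have := h.rk <;> omega⟩

lemma updown {P : ℕ → Prop} (x : ℕ → ℕ × Fin 7) (m : ℕ)
    (h1 : ∀ i, i < m → (Gam P).Adj (x i) (x (i + 1))) (h2 : ∀ i, i + 2 ≤ m → x i ≠ x (i + 2)) :
    ∃ r ≤ m, (∀ i < r, Up P (x i) (x (i + 1))) ∧ ∀ i, r ≤ i → i < m → Up P (x (i + 1)) (x i) := by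
  classical
  have hex : ∃ r, r = m ∨ ¬ Up P (x r) (x (r + 1)) := ⟨m, Or.inl rfl⟩
  have hle : Nat.find hex ≤ m := Nat.find_min' hex (Or.inl rfl)
  refine ⟨Nat.find hex, hle, fun i hi => ?_, fun i hi => ?_⟩
  · have := Nat.find_min hex hi
    push Not at this
    exact this.2
  · induction i, hi using Nat.le_induction with
    | base =>
      intro hm
      rcases Nat.find_spec hex with h | h
      · omega
      · exact (h1 _ hm).resolve_left h
    | succ i hi ih =>
      intro hm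
      have h3 := ih (by omega)
      rcases h1 _ hm with h | h
      · exact absurd (h3.uniq h) (h2 i (by omega))
      · exact h

lemma uprun {P : ℕ → Prop} (y : ℕ → ℕ × Fin 7) (r : ℕ) (h : ∀ i < r, Up P (y i) (y (i + 1))) :
    ∀ i ≤ r, (i ≤ dp (y 0).2 → (y i).1 = (y 0).1 ∧ dp (y i).2 + i = dp (y 0).2) ∧
      (dp (y 0).2 ≤ i → (y i).1 + i = (y 0).1 + dp (y 0).2 ∧ dp (y i).2 = 0) := by
  intro i
  induction i with
  | zero => intro _; exact ⟨fun _ => ⟨rfl, rfl⟩, fun h => ⟨by omega, by omega⟩⟩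
  | succ i ih =>
    intro hi
    obtain ⟨a1, a2⟩ := ih (by omega)
    have hu := h i (by omega)
    have hrk := hu.rk
    rcases hu with ⟨h1, h2, h3⟩ | ⟨h1, _, h3, h4⟩
    · have e1 := (dp_zero _).mpr h1
      have e2 := (dp_zero _).mpr h2
      constructor <;> intro h5 <;> omega
    · have e1 : dp (y i).2 ≠ 0 := fun h => h1 ((dp_zero _).mp h)
      constructor <;> intro h5 <;> omega

lemma Gam_acyclic (P : ℕ → Prop) : (Gam P).IsAcyclic := by
  intro v p hp
  have hl := hp.three_le_length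
  obtain ⟨r, hr, h1, h2⟩ := updown (P := P) p.getVert p.length
    (fun i hi => p.adj_getVert_succ hi)
    (fun i hi => by
      have := hp.getVert_sub_one_ne_getVert_add_one (i := i + 1) (by omega)
      simpa using this)
  have hup : ∀ i ≤ r, (p.getVert i).1 + dp (p.getVert i).2 + i = v.1 + dp v.2 := by
    intro i
    induction i with
    | zero => intro _; simp
    | succ i ih => intro hi; have := (h1 i (by omega)).rk; have := ih (by omega); omega
  have hdn : ∀ i, r ≤ i → i ≤ p.length → (p.getVert i).1 + dp (p.getVert i).2 + r =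
      (p.getVert r).1 + dp (p.getVert r).2 + i := by
    intro i hi
    induction i, hi using Nat.le_induction with
    | base => intro _; rfl
    | succ i hi ih => intro hm; have := (h2 i hi (by omega)).rk; have := ih (by omega); omega
  have e1 := hup r le_rfl
  have e2 := hdn p.length hr le_rfl
  rw [p.getVert_length] at e2
  have a1 := h1 0 (by omega)
  have a2 := h2 (p.length - 1) (by omega) (by omega)
  have e3 : p.length - 1 + 1 = p.length := by omega
  rw [e3, p.getVert_length] at a2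
  rw [p.getVert_zero] at a1
  have := hp.getVert_injOn (show 1 ≤ 0 + 1 ∧ 0 + 1 ≤ p.length by omega)
    (show 1 ≤ p.length - 1 ∧ p.length - 1 ≤ p.length by omega) (a1.uniq a2)
  omega

def P0 (n : ℕ) : Prop := w n = w (n + 2)

def cn (v : ℕ × Fin 7) : ℕ := AA (w (v.1 + 1)) (w (v.1 + 2)) (dp v.2)

lemma cn_lt (v : ℕ × Fin 7) : cn v < 3 := by
  have := w_lt (v.1 + 1)
  have := w_lt (v.1 + 2)
  simp only [cn, AA]; split_ifs <;> omega

lemma AA_zero (c x : ℕ) : AA c x 0 = c := by simp [AA]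

lemma cn_core (n : ℕ) (hn : 0 < n) (x : ℕ → ℕ × Fin 7) (r : ℕ) (hr : r ≤ 2 * n - 1)
    (h1 : ∀ i < r, Up P0 (x i) (x (i + 1)))
    (h2 : ∀ i, r ≤ i → i < 2 * n - 1 → Up P0 (x (i + 1)) (x i))
    (hd : r ≤ dp (x 0).2) : ∃ i < n, cn (x i) ≠ cn (x (i + n)) := by
  let y : ℕ → ℕ × Fin 7 := fun j => x (2 * n - 1 - j)
  have hy : ∀ j < 2 * n - 1 - r, Up P0 (y j) (y (j + 1)) := by
    intro j hj
    have := h2 (2 * n - 1 - (j + 1)) (by omega) (by omega)
    have e : 2 * n - 1 - (j + 1) + 1 = 2 * n - 1 - j := by omega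
    rw [e] at this; exact this
  have ux := uprun x r h1
  have uy := uprun y _ hy
  have hxy : ∀ i, i ≤ 2 * n - 1 → x i = y (2 * n - 1 - i) := fun i hi => by
    simp only [y]; congr 1; omega
  have hb := dp_le (y 0).2
  have ha := dp_le (x 0).2
  have top1 := (ux r le_rfl).1 hd
  have top2 := uy _ le_rfl
  rw [← hxy r hr] at top2
  by_cases hs : 2 * n - 1 - r ≤ dp (y 0).2
  · have top3 := top2.1 hs
    obtain ⟨i, hi, h3⟩ := key1 (w ((x 0).1 + 1)) (w ((x 0).1 + 2)) (dp (x 0).2) (dp (y 0).2)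
      (dp (x r).2) n (w_lt _) (w_lt _) (w_ne _) ha hb (by omega) (by omega) (by omega)
    have hc : ∀ j, j < 2 * n → cn (x j) =
        hh (w ((x 0).1 + 1)) (w ((x 0).1 + 2)) (dp (x 0).2) j (dp (x r).2) := by
      intro j hj
      simp only [hh, cn]
      split_ifs with h4
      · have := (ux j (by omega)).1 (by omega)
        rw [this.1]; congr 1; omega
      · have := (uy (2 * n - 1 - j) (by omega)).1 (by omega)
        rw [← hxy j (by omega)] at this
        have e : (x j).1 = (x 0).1 := by omega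
        rw [e]; congr 1; omega
    exact ⟨i, hi, by rw [hc i (by omega), hc (i + n) (by omega)]; exact h3⟩
  · have top3 := top2.2 (by omega)
    have hrd : r = dp (x 0).2 := by omega
    obtain ⟨i, hi, h3⟩ := key (x 0).1 n ((y 0).1 - (x 0).1) (dp (x 0).2) (dp (y 0).2) ha hb
      (by omega)
      (fun h => by
        rcases h1 0 (by omega) with h4 | h4
        · exact absurd ((dp_zero _).mpr h4.1) h
        · exact h4.2.1)
      (fun h => by
        have e : (x 0).1 + ((y 0).1 - (x 0).1) = (y 0).1 := by omega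
        rw [e]
        rcases hy 0 (by omega) with h4 | h4
        · exact absurd ((dp_zero _).mpr h4.1) h
        · exact h4.2.1)
    have hc : ∀ j, j < 2 * n → cn (x j) =
        gg (fun i => w ((x 0).1 + i)) ((y 0).1 - (x 0).1) (dp (x 0).2) j := by
      intro j hj
      simp only [gg, cn]
      split_ifs with h4 h5
      · have := (ux j (by omega)).1 (by omega)
        rw [this.1]; congr 1; omega
      · have := (uy (2 * n - 1 - j) (by omega)).2 (by omega)
        rw [← hxy j (by omega)] at this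
        rw [this.2, AA_zero]; congr 1; omega
      · have := (uy (2 * n - 1 - j) (by omega)).1 (by omega)
        rw [← hxy j (by omega)] at this
        congr 1
        · congr 1; omega
        · congr 1; omega
        · omega
    exact ⟨i, hi, by rw [hc i (by omega), hc (i + n) (by omega)]; exact h3⟩

lemma cn_NRF : NRF (Gam P0) cn Set.univ := by
  intro n hn x a1 a2 _
  obtain ⟨r, hr, h1, h2⟩ := updown (P := P0) x (2 * n - 1) (fun i hi => a1 i (by omega))
    (fun i hi h => by have := a2 i (i + 2) (by omega) (by omega) h; omega)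
  by_cases hd : r ≤ dp (x 0).2
  · exact cn_core n hn x r hr h1 h2 hd
  · let y : ℕ → ℕ × Fin 7 := fun j => x (2 * n - 1 - j)
    have hy : ∀ j < 2 * n - 1 - r, Up P0 (y j) (y (j + 1)) := by
      intro j hj
      have := h2 (2 * n - 1 - (j + 1)) (by omega) (by omega)
      have e : 2 * n - 1 - (j + 1) + 1 = 2 * n - 1 - j := by omega
      rw [e] at this; exact this
    have hy2 : ∀ j, 2 * n - 1 - r ≤ j → j < 2 * n - 1 → Up P0 (y (j + 1)) (y j) := by
      intro j hj hj'
      have := h1 (2 * n - 1 - (j + 1)) (by omega)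
      have e : 2 * n - 1 - (j + 1) + 1 = 2 * n - 1 - j := by omega
      rw [e] at this; exact this
    by_cases hs : 2 * n - 1 - r ≤ dp (y 0).2
    · obtain ⟨i, hi, h3⟩ := cn_core n hn y (2 * n - 1 - r) (by omega) hy hy2 hs
      refine ⟨n - 1 - i, by omega, fun h => h3 ?_⟩
      have e1 : 2 * n - 1 - i = n - 1 - i + n := by omega
      have e2 : 2 * n - 1 - (i + n) = n - 1 - i := by omega
      simp only [y, e1, e2]; exact h.symm
    · exfalso
      have ux := (uprun x r h1 (r - 1) (by omega)).2 (by omega)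
      have ux' := (uprun x r h1 r le_rfl).2 (by omega)
      have uy := (uprun y _ hy (2 * n - 1 - r - 1) (by omega)).2 (by omega)
      have uy' := (uprun y _ hy (2 * n - 1 - r) le_rfl).2 (by omega)
      have e1 : y (2 * n - 1 - r - 1) = x (r + 1) := by simp only [y]; congr 1; omega
      have e2 : y (2 * n - 1 - r) = x r := by simp only [y]; congr 1; omega
      rw [e1] at uy
      rw [e2] at uy'
      have := a2 (r - 1) (r + 1) (by omega) (by omega) (Prod.ext (by omega)
        (((dp_zero _).mp ux.2).trans ((dp_zero _).mp uy.2).symm))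
      omega

lemma col_P0 : ∃ c : ℕ × Fin 7 → Fin 3, NRF (Gam P0) c Set.univ :=
  ⟨fun v => ⟨cn v, cn_lt v⟩, fun n hn x a1 a2 a3 => by
    obtain ⟨i, hi, h⟩ := cn_NRF n hn x a1 a2 a3
    exact ⟨i, hi, fun h' => h (congrArg Fin.val h')⟩⟩

set_option synthInstance.maxSize 4000 in
lemma force3 : ∀ c L R u u1 u2 g1 g2 h : Fin 3, L ≠ c → R ≠ c → u ≠ c → u1 ≠ u → u2 ≠ u →
    g1 ≠ u1 → g2 ≠ u1 → h ≠ g1 → ¬ (u1 = c ∧ u = R) → ¬ (u1 = c ∧ u = L) →
    ¬ (u2 = c ∧ u = R) → ¬ (u2 = c ∧ u = L) → ¬ (g1 = u ∧ u1 = u2) → ¬ (g2 = u ∧ u1 = u2) →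
    ¬ (h = u1 ∧ g1 = g2) → ¬ (h = u ∧ g1 = c ∧ u1 = L) → ¬ (h = u ∧ g1 = c ∧ u1 = R) → L = R := by
  decide +kernel

lemma nocol (P : ℕ → Prop) (q : ℕ) (hq : 0 < q) (hper : ∀ n, P (n + q) ↔ P n)
    (h4 : ∀ n, ∃ i < 4, P (n + i)) (M : ℕ) (hM : 20 * q + 20 ≤ M) (c : ℕ × Fin 7 → Fin 3) :
    ¬ NRF (Gam P) c {v | v.1 < M} := by
  intro hc
  let s : ℕ → Fin 3 := fun i => c (i, 0)
  have hsq : ∀ i n, 0 < n → i + 2 * n ≤ M → ∃ j < n, s (i + j) ≠ s (i + (j + n)) := by
    intro i n hn hi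
    exact hc n hn (fun j => (i + j, 0)) (fun j _ => Or.inr (Or.inl ⟨rfl, rfl, rfl⟩))
      (fun j k _ _ h => by simpa using h) (fun j hj => show i + j < M by omega)
  have hne : ∀ i, i + 2 ≤ M → s i ≠ s (i + 1) := by
    intro i hi
    obtain ⟨j, hj, h⟩ := hsq i 1 (by omega) (by omega)
    have : j = 0 := by omega
    subst this; simpa using h
  have hfor : ∀ i, i + 3 ≤ M → P (i + 1) → s i = s (i + 2) := by
    intro i hi hP
    have b0 : i < M := by omega
    have b1 : i + 1 < M := by omega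
    have b2 : i + 2 < M := by omega
    have L2 := fun a b => hc.list [a, b] 1 (by omega) rfl
    have L4 := fun a b d e => hc.list [a, b, d, e] 2 (by omega) rfl
    have L6 := fun a b d e f g => hc.list [a, b, d, e, f, g] 3 (by omega) rfl
    refine force3 (c (i + 1, 0)) (c (i, 0)) (c (i + 2, 0)) (c (i + 1, 1)) (c (i + 1, 2))
      (c (i + 1, 3)) (c (i + 1, 4)) (c (i + 1, 5)) (c (i + 1, 6)) (hne i (by omega))
      (hne (i + 1) (by omega)).symm ?_ ?_ ?_ ?_ ?_ ?_ ?_ ?_ ?_ ?_ ?_ ?_ ?_ ?_ ?_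
    · simpa using L2 (i + 1, 1) (i + 1, 0) (by simp [Gam, Up, pk, hP]) (by simp) (by simp [b1])
    · simpa using L2 (i + 1, 2) (i + 1, 1) (by simp [Gam, Up, pk, hP]) (by simp) (by simp [b1])
    · simpa using L2 (i + 1, 3) (i + 1, 1) (by simp [Gam, Up, pk, hP]) (by simp) (by simp [b1])
    · simpa using L2 (i + 1, 4) (i + 1, 2) (by simp [Gam, Up, pk, hP]) (by simp) (by simp [b1])
    · simpa using L2 (i + 1, 5) (i + 1, 2) (by simp [Gam, Up, pk, hP]) (by simp) (by simp [b1])
    · simpa using L2 (i + 1, 6) (i + 1, 4) (by simp [Gam, Up, pk, hP]) (by simp) (by simp [b1])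
    · simpa using L4 (i + 1, 2) (i + 1, 1) (i + 1, 0) (i + 2, 0) (by simp [Gam, Up, pk, hP])
        (by simp) (by simp [b1, b2])
    · simpa using L4 (i + 1, 2) (i + 1, 1) (i + 1, 0) (i, 0) (by simp [Gam, Up, pk, hP])
        (by simp) (by simp [b1, b0])
    · simpa using L4 (i + 1, 3) (i + 1, 1) (i + 1, 0) (i + 2, 0) (by simp [Gam, Up, pk, hP])
        (by simp) (by simp [b1, b2])
    · simpa using L4 (i + 1, 3) (i + 1, 1) (i + 1, 0) (i, 0) (by simp [Gam, Up, pk, hP])
        (by simp) (by simp [b1, b0])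
    · simpa using L4 (i + 1, 4) (i + 1, 2) (i + 1, 1) (i + 1, 3) (by simp [Gam, Up, pk, hP])
        (by simp) (by simp [b1])
    · simpa using L4 (i + 1, 5) (i + 1, 2) (i + 1, 1) (i + 1, 3) (by simp [Gam, Up, pk, hP])
        (by simp) (by simp [b1])
    · simpa using L4 (i + 1, 6) (i + 1, 4) (i + 1, 2) (i + 1, 5) (by simp [Gam, Up, pk, hP])
        (by simp) (by simp [b1])
    · simpa using L6 (i + 1, 6) (i + 1, 4) (i + 1, 2) (i + 1, 1) (i + 1, 0) (i, 0)
        (by simp [Gam, Up, pk, hP]) (by simp) (by simp [b1, b0])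
    · simpa using L6 (i + 1, 6) (i + 1, 4) (i + 1, 2) (i + 1, 1) (i + 1, 0) (i + 2, 0)
        (by simp [Gam, Up, pk, hP]) (by simp) (by simp [b1, b2])
  have hs2 : ∀ i, i + 4 ≤ M → ¬ (s i = s (i + 2) ∧ s (i + 1) = s (i + 3)) := by
    rintro i hi ⟨h1, h2⟩
    obtain ⟨j, hj, h⟩ := hsq i 2 (by omega) (by omega)
    interval_cases j
    · exact h h1
    · exact h h2
  have hback : ∀ i, i + 8 ≤ M → s (i + 2) = s (i + 4) → P (i + 3) := by
    intro i hi h
    by_contra hn
    have n2 : ¬ P (i + 2) := fun h1 => hs2 (i + 1) (by omega) ⟨hfor (i + 1) (by omega) h1, h⟩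
    have n4 : ¬ P (i + 4) := fun h1 => hs2 (i + 2) (by omega) ⟨h, hfor (i + 3) (by omega) h1⟩
    have p1 : P (i + 1) := by
      obtain ⟨j, hj, h1⟩ := h4 (i + 1)
      interval_cases j
      · exact h1
      · exact absurd h1 n2
      · exact absurd h1 hn
      · exact absurd h1 n4
    have p5 : P (i + 5) := by
      obtain ⟨j, hj, h1⟩ := h4 (i + 2)
      interval_cases j
      · exact absurd h1 n2
      · exact absurd h1 hn
      · exact absurd h1 n4
      · exact h1
    have e1 := hfor i (by omega) p1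
    have e2 : s (i + 4) = s (i + 6) := hfor (i + 4) (by omega) p5
    have key : ∀ a b d e f : Fin 3, a ≠ b → a ≠ d → a ≠ e → a ≠ f → b ≠ d → d ≠ e → e ≠ f →
        b = e ∧ d = f := by decide
    have k1 := key (s i) (s (i + 1)) (s (i + 3)) (s (i + 5)) (s (i + 7)) (hne i (by omega))
      (by rw [e1]; exact hne (i + 2) (by omega)) (by rw [e1, h]; exact hne (i + 4) (by omega))
      (by rw [e1, h, e2]; exact hne (i + 6) (by omega))
      (fun h1 => hs2 i (by omega) ⟨e1, h1⟩) (fun h1 => hs2 (i + 2) (by omega) ⟨h, h1⟩)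
      (fun h1 => hs2 (i + 4) (by omega) ⟨e2, h1⟩)
    obtain ⟨j, hj, h1⟩ := hsq i 4 (by omega) (by omega)
    interval_cases j
    · exact h1 (e1.trans h)
    · exact h1 k1.1
    · exact h1 (h.trans e2)
    · exact h1 k1.2
  have hperk : ∀ k n, P (n + k * q) ↔ P n := by
    intro k
    induction k with
    | zero => simp
    | succ k ih => intro n; rw [add_mul, one_mul, ← add_assoc, hper, ih]
  have hdet : ∀ a k, s (a + 2) = s (a + 2 + k * q) → s (a + 3) = s (a + 3 + k * q) →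
      ∀ j, a + j + k * q + 8 ≤ M → s (a + j + 2) = s (a + j + 2 + k * q) ∧
        s (a + j + 3) = s (a + j + 3 + k * q) := by
    intro a k h1 h2 j
    induction j with
    | zero => intro _; exact ⟨h1, h2⟩
    | succ j ih =>
      intro hj
      obtain ⟨h5, h6⟩ := ih (by omega)
      refine ⟨h6, ?_⟩
      have e1 : a + j + 2 + k * q = a + j + k * q + 2 := by ring
      have e2 : a + j + 3 + k * q = a + j + k * q + 3 := by ring
      have e3 : a + (j + 1) + 3 + k * q = a + j + k * q + 4 := by ring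
      have e4 : a + (j + 1) + 3 = a + j + 4 := by ring
      rw [e1] at h5
      rw [e2] at h6
      rw [e3, e4]
      have hP : P (a + j + k * q + 3) ↔ P (a + j + 3) := by rw [← e2]; exact hperk _ _
      by_cases hp : P (a + j + 3)
      · rw [← hfor (a + j + 2) (by omega) hp, ← hfor (a + j + k * q + 2) (by omega) (hP.mpr hp)]
        exact h5
      · have key : ∀ a b d e : Fin 3, a ≠ b → a ≠ d → a ≠ e → b ≠ d → b ≠ e → d = e := by decide
        refine key (s (a + j + 2)) (s (a + j + 3)) _ _ (hne _ (by omega))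
          (fun h => hp (hback _ (by omega) h)) ?_ (hne _ (by omega)) ?_
        · rw [h5]; exact fun h => hp (hP.mp (hback _ (by omega) h))
        · rw [h6]; exact hne _ (by omega)
  have fin : ∀ k1 k2 : ℕ, k1 < k2 → k2 ≤ 9 → s (k1 * q + 2) = s (k2 * q + 2) →
      s (k1 * q + 3) = s (k2 * q + 3) → False := by
    intro k1 k2 h1 h2 h5 h6
    obtain ⟨k, rfl⟩ := Nat.exists_eq_add_of_lt h1
    have hk : (k + 1) * q ≤ 9 * q := Nat.mul_le_mul_right _ (by omega)
    have hk1 : k1 * q + (k + 1) * q ≤ 9 * q := by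
      rw [← add_mul]; exact Nat.mul_le_mul_right _ (by omega)
    have hpos : 0 < (k + 1) * q := Nat.mul_pos (by omega) hq
    obtain ⟨j, hj, h7⟩ := hsq (k1 * q + 2) ((k + 1) * q) hpos (by omega)
    apply h7
    have := (hdet (k1 * q) (k + 1) (by rw [h5]; congr 1; ring) (by rw [h6]; congr 1; ring) j
      (by omega)).1
    have e1 : k1 * q + 2 + j = k1 * q + j + 2 := by ring
    have e2 : k1 * q + 2 + (j + (k + 1) * q) = k1 * q + j + 2 + (k + 1) * q := by ring
    rw [e1, e2]; exact this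
  obtain ⟨k1, k2, hk, h⟩ := Fintype.exists_ne_map_eq_of_card_lt
    (fun k : Fin 10 => (s (k * q + 2), s (k * q + 3))) (by simp)
  simp only [Prod.mk.injEq] at h
  rcases lt_or_gt_of_ne (Fin.val_injective.ne hk) with h1 | h1
  · exact fin k1 k2 h1 (by omega) h.1 h.2
  · exact fin k2 k1 h1 (by omega) h.1.symm h.2.symm

lemma exists_P (K : ℕ) : ∃ (P : ℕ → Prop) (q : ℕ), 0 < q ∧ (∀ n, P (n + q) ↔ P n) ∧
    ∀ n, ∃ t, ∀ r < K, P (n + r) ↔ P0 (t + r) := by
  classical
  obtain ⟨i, j, hij, h⟩ := Finite.exists_ne_map_eq_of_infinite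
    (fun i : ℕ => fun r : Fin K => decide (P0 (i + r)))
  wlog hlt : i < j generalizing i j
  · exact this j i hij.symm h.symm (by omega)
  have h1 : ∀ r < K, P0 (i + r) ↔ P0 (j + r) := fun r hr => by
    simpa using congrFun h ⟨r, hr⟩
  obtain ⟨q, rfl⟩ : ∃ q, j = i + q := ⟨j - i, by omega⟩
  have hq : 0 < q := by omega
  have h2 : ∀ m, m < q + K → (P0 (i + m) ↔ P0 (i + m % q)) := by
    intro m
    induction m using Nat.strong_induction_on with
    | _ m ih =>
      intro hm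
      by_cases h3 : m < q
      · rw [Nat.mod_eq_of_lt h3]
      · obtain ⟨r, rfl⟩ : ∃ r, m = q + r := ⟨m - q, by omega⟩
        rw [← add_assoc, ← h1 r (by omega), ih r (by omega) (by omega), Nat.add_mod_left]
  refine ⟨fun n => P0 (i + n % q), q, hq, fun n => by simp, fun n => ⟨i + n % q, fun r hr => ?_⟩⟩
  have := Nat.mod_lt n hq
  rw [add_assoc, h2 (n % q + r) (by omega), Nat.mod_add_mod]

lemma small {P : ℕ → Prop} {K m : ℕ} (hP : ∀ n, ∃ t, ∀ r < K, P (n + r) ↔ P0 (t + r))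
    (hm : m ≤ K) (G : SimpleGraph (Fin m)) (hG : G.Connected) (f : G →g Gam P)
    (hf : Function.Injective f) : ∃ c : Fin m → Fin 3, NRW G c := by
  have := hG.nonempty
  obtain ⟨v0, hv0⟩ := Finite.exists_min fun v => (f v).1
  have hw : ∀ u v (p : G.Walk u v), (f v).1 ≤ (f u).1 + p.length := by
    intro u v p
    induction p with
    | nil => simp
    | cons h p ih =>
      have h1 := f.map_adj h
      rw [Walk.length_cons]
      rcases h1 with (h1 | h1) | (h1 | h1) <;> omega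
  have hb : ∀ v, (f v).1 < (f v0).1 + K := by
    intro v
    obtain ⟨p, hp⟩ := (hG v0 v).exists_isPath
    have h1 := hp.length_lt
    have h2 := hw _ _ p
    rw [Fintype.card_fin] at h1
    omega
  obtain ⟨t, ht⟩ := hP (f v0).1
  obtain ⟨c, hc⟩ := col_P0
  let g : Fin m → ℕ × Fin 7 := fun v => (t + ((f v).1 - (f v0).1), (f v).2)
  have hU : ∀ a b, Up P (f a) (f b) → Up P0 (g a) (g b) := by
    intro a b h
    have := hv0 a
    have := hv0 b
    rcases h with ⟨h1, h2, h3⟩ | ⟨h1, h2, h3, h4⟩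
    · exact Or.inl ⟨h1, h2, by simp only [g]; omega⟩
    · refine Or.inr ⟨h1, ?_, by simp only [g]; omega, h4⟩
      have := hb a
      refine (ht _ (by omega)).mp ?_
      have e : (f v0).1 + ((f a).1 - (f v0).1) = (f a).1 := by omega
      rw [e]; exact h2
  refine ⟨c ∘ g, NRW_of_NRF (hc.pull g (fun a _ b _ h => ?_) (fun a _ b _ h => hf ?_)
    (fun _ _ => trivial))⟩
  · rcases f.map_adj h with h1 | h1
    · exact Or.inl (hU _ _ h1)
    · exact Or.inr (hU _ _ h1)
  · have := hv0 a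
    have := hv0 b
    simp only [g, Prod.mk.injEq] at h
    exact Prod.ext (by omega) h.2

theorem main (N : ℕ) : ∃ m : ℕ, N ≤ m ∧ ∃ G : SimpleGraph (Fin m), G.IsTree ∧
    (¬ ∃ c : Fin m → Fin 3, NRW G c) ∧ (∃ c : Fin m → Fin 4, NRW G c) ∧
    ∀ H : G.Subgraph, H.Connected → H ≠ ⊤ → ∃ c : H.verts → Fin 3, NRW H.coe c := by
  obtain ⟨P, q, hq, hper, hP⟩ := exists_P (N + 4)
  have h4 : ∀ n, ∃ i < 4, P (n + i) := by
    intro n
    obtain ⟨t, ht⟩ := hP n
    obtain ⟨i, hi, h⟩ := four t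
    exact ⟨i, hi, (ht i (by omega)).mpr h⟩
  obtain ⟨m, G, h1, ⟨f, hf⟩, h2, h3, h5⟩ := extract (Gam P) (Gam_acyclic P)
    (Finset.range (20 * q + 20) ×ˢ Finset.univ) (by
      rintro ⟨c, hc⟩
      refine nocol P q hq hper h4 (20 * q + 20) le_rfl c ?_
      convert hc using 1
      ext v; simp)
  refine ⟨m, ?_, G, h1, h2, h3, h5⟩
  by_contra hm
  exact h2 (small hP (by omega) G h1.connected f hf)

end Pool.Agent.H.MP_87579d_co
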